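import Mathlib
import Pool.Agent.Q84.Pauli
import Pool.Agent.Helper76.HPlanch

/-!
# Non-discrete Pauli sets of functions supported in `[0,1]`

There is an uncountable Pauli set, all of whose elements vanish outside `[0,1]`, without isolated
points.
-/

set_option autoImplicit false

namespace Pool.Agent.Results.MP_d886ff_an.NonDiscretePauliSet

open MeasureTheory Filter FourierTransform

/-- The complex Hilbert space `L²(ℝ)`. -/
abbrev L2 : Type := Lp ℂ 2 (volume : Measure ℝ)

/-- A Pauli pair: linearly independent `f, g ∈ L²(ℝ)` with `|f| = |g|` and `|f̂| = |ĝ|` almost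
everywhere. Here `𝓕` is the (Plancherel) Fourier transform of `L²(ℝ)`, in Mathlib's normalisation
with kernel `exp(-2πixy)`; since this is a rescaling of the one with kernel `exp(-ixy)`, the
condition `|f̂| = |ĝ|` a.e. is the same for both normalisations. -/
def IsPauliPair (f g : L2) : Prop :=
  LinearIndependent ℂ ![f, g] ∧ (∀ᵐ x : ℝ, ‖f x‖ = ‖g x‖) ∧
    (∀ᵐ x : ℝ, ‖(𝓕 f : L2) x‖ = ‖(𝓕 g : L2) x‖)

/-- A Pauli set: at least two elements, and any two distinct elements form a Pauli pair. -/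
def IsPauliSet (P : Set L2) : Prop :=
  P.Nontrivial ∧ ∀ f ∈ P, ∀ g ∈ P, f ≠ g → IsPauliPair f g

/-- the phases: `2^{-(k+1)}` with signs -/
noncomputable def ph (ε : ℕ → Bool) (k : ℕ) : ℝ := (if ε k then 1 else -1) * (1 / 2) ^ (k + 1)

theorem ph_abs (ε : ℕ → Bool) (k : ℕ) : |ph ε k| = (1 / 2) ^ (k + 1) := by
  unfold ph
  rw [abs_mul, abs_of_pos (by positivity : (0 : ℝ) < (1 / 2) ^ (k + 1))]
  split_ifs <;> simp

theorem ph_summable (ε : ℕ → Bool) : Summable fun k => |ph ε k| := by
  simp only [ph_abs]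
  exact (summable_nat_add_iff 1).2 (summable_geometric_of_lt_one (by norm_num) (by norm_num))

/-- the elements of the Pauli set -/
noncomputable def el (ε : ℕ → Bool) : L2 :=
  (Q84.Pauli.fn_memLp (ph_summable ε) 2).toLp (Q84.Pauli.fn (ph ε))

theorem el_coe (ε : ℕ → Bool) : (el ε : ℝ → ℂ) =ᵐ[volume] Q84.Pauli.fn (ph ε) :=
  MemLp.coeFn_toLp _

theorem fourier_el (ε : ℕ → Bool) :
    ((𝓕 (el ε) : L2) : ℝ → ℂ) =ᵐ[volume] Q84.Pauli.G (ph ε) := by
  have h := Pool.Agent.Helper76.NormalHP.fourier_toLp_ae (Q84.Pauli.fn (ph ε))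
    (memLp_one_iff_integrable.1 (Q84.Pauli.fn_memLp (ph_summable ε) 1))
    (Q84.Pauli.fn_memLp (ph_summable ε) 2)
  have e : 𝓕 (Q84.Pauli.fn (ph ε)) = Q84.Pauli.G (ph ε) :=
    funext fun ξ => Q84.Pauli.fourier_fn (ph ε) ξ
  rw [e] at h
  exact h

theorem ph_sign (ε δ : ℕ → Bool) (k : ℕ) : ph δ k = ph ε k ∨ ph δ k = -ph ε k := by
  unfold ph
  cases ε k <;> cases δ k <;> simp

theorem indep {ε δ : ℕ → Bool} (h : ε ≠ δ) : LinearIndependent ℂ ![el ε, el δ] := by
  obtain ⟨k, hk⟩ := Function.ne_iff.1 h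
  rw [LinearIndependent.pair_iff]
  intro s t hst
  have h1 : ∀ᵐ x : ℝ, s * Q84.Pauli.fn (ph ε) x + t * Q84.Pauli.fn (ph δ) x = 0 := by
    have h2 : ((s • el ε + t • el δ : L2) : ℝ → ℂ) =ᵐ[volume] 0 := by
      rw [hst]; exact Lp.coeFn_zero _ _ _
    filter_upwards [h2, Lp.coeFn_add (s • el ε) (t • el δ), Lp.coeFn_smul s (el ε),
      Lp.coeFn_smul t (el δ), el_coe ε, el_coe δ] with x a1 a2 a3 a4 a5 a6
    rw [a2] at a1
    simp only [Pi.add_apply, a3, a4, Pi.smul_apply, a5, a6, smul_eq_mul, Pi.zero_apply] at a1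
    exact a1
  have hpos : ∃ x : ℝ, x ∈ Set.Ico (0 : ℝ) 1 ∧
      s * Q84.Pauli.fn (ph ε) x + t * Q84.Pauli.fn (ph δ) x = 0 := by
    by_contra hcon
    push Not at hcon
    rw [ae_iff] at h1
    have h4 : volume (Set.Ico (0 : ℝ) 1) = 0 := measure_mono_null (fun x hx => hcon x hx) h1
    simp at h4
  by_cases hs : s = 0
  · refine ⟨hs, ?_⟩
    obtain ⟨x, hx, h3⟩ := hpos
    rw [hs, zero_mul, zero_add] at h3
    rcases mul_eq_zero.1 h3 with h5 | h5
    · exact h5
    · exfalso
      have := Q84.Pauli.fn_norm (ph δ) x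
      rw [h5, norm_zero, Set.indicator_of_mem hx] at this
      norm_num at this
  · exfalso
    have hsub : Summable fun k => |ph ε k - ph δ k| :=
      Summable.of_nonneg_of_le (fun k => abs_nonneg _) (fun k => abs_sub _ _)
        ((ph_summable ε).add (ph_summable δ))
    refine Q84.Pauli.not_const (t := fun k => ph ε k - ph δ k) hsub k ?_ ?_ (-t / s) ?_
    · intro h0
      have hp : (0 : ℝ) < (1 / 2) ^ (k + 1) := by positivity
      have hne : (if ε k then (1 : ℝ) else -1) ≠ (if δ k then 1 else -1) := by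
        revert hk
        cases ε k <;> cases δ k <;> simp <;> norm_num
      have h6 := sub_eq_zero.1 h0
      unfold ph at h6
      exact hne (mul_right_cancel₀ hp.ne' h6)
    · refine (abs_sub _ _).trans_lt ?_
      rw [ph_abs, ph_abs]
      have : (1 / 2 : ℝ) ^ (k + 1) ≤ 1 := pow_le_one₀ (by norm_num) (by norm_num)
      nlinarith [Real.pi_gt_three]
    · filter_upwards [h1] with x hx1 hx
      unfold Q84.Pauli.fn at hx1
      rw [Set.indicator_of_mem hx, Set.indicator_of_mem hx] at hx1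
      rw [← Q84.Pauli.Ph_sub (ph_summable ε) (ph_summable δ)]
      have e : Complex.exp (Complex.I * ((Q84.Pauli.Ph (ph ε) x - Q84.Pauli.Ph (ph δ) x : ℝ) : ℂ)) *
          Complex.exp (Complex.I * (Q84.Pauli.Ph (ph δ) x : ℂ)) =
          Complex.exp (Complex.I * (Q84.Pauli.Ph (ph ε) x : ℂ)) := by
        rw [← Complex.exp_add]; congr 1; push_cast; ring
      rw [← e, ← mul_assoc, ← add_mul] at hx1
      rcases mul_eq_zero.1 hx1 with h5 | h5
      · rw [eq_div_iff hs]
        linear_combination h5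
      · exact absurd h5 (Complex.exp_ne_zero _)

theorem el_injective : Function.Injective el := by
  intro ε δ h
  by_contra hne
  have := indep hne
  rw [h] at this
  have h2 := LinearIndependent.pair_iff.1 this 1 (-1) (by simp)
  exact one_ne_zero h2.1

theorem pair {ε δ : ℕ → Bool} (h : ε ≠ δ) : IsPauliPair (el ε) (el δ) := by
  refine ⟨indep h, ?_, ?_⟩
  · filter_upwards [el_coe ε, el_coe δ] with x h1 h2
    rw [h1, h2, Q84.Pauli.fn_norm, Q84.Pauli.fn_norm]
  · filter_upwards [fourier_el ε, fourier_el δ] with x h1 h2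
    rw [h1, h2]
    exact Q84.Pauli.G_norm_eq (ph_summable ε) (ph_summable δ) (ph_sign ε δ) x

theorem dist_el (ε : ℕ → Bool) (m : ℕ) :
    ‖el (Function.update ε m (!(ε m))) - el ε‖ ≤ (1 / 2) ^ m := by
  set δ := Function.update ε m (!(ε m)) with hδ
  have h1 : eLpNorm (fun x => Q84.Pauli.fn (ph δ) x - Q84.Pauli.fn (ph ε) x) 2 volume ≤
      ENNReal.ofReal ((1 / 2) ^ m) := by
    refine (Q84.Pauli.fn_eLpNorm (ph_summable δ) (ph_summable ε)).trans ?_
    apply ENNReal.ofReal_le_ofReal
    have : ∀ k, |ph δ k - ph ε k| = if k = m then (1 / 2) ^ m else 0 := by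
      intro k
      unfold ph
      by_cases hk : k = m
      · subst hk
        rw [if_pos rfl, hδ, Function.update_self]
        have hp : (0 : ℝ) < (1 / 2) ^ k := by positivity
        cases ε k
        · simp only [Bool.not_false, if_true, Bool.false_eq_true, if_false]
          rw [abs_of_pos] <;> rw [pow_succ] <;> nlinarith
        · simp only [Bool.not_true, if_true, Bool.false_eq_true, if_false]
          rw [abs_of_neg] <;> rw [pow_succ] <;> nlinarith
      · rw [if_neg hk, hδ, Function.update_of_ne hk, sub_self, abs_zero]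
    simp_rw [this]
    rw [tsum_ite_eq]
  have h2 : ‖el δ - el ε‖ = (eLpNorm (fun x => Q84.Pauli.fn (ph δ) x - Q84.Pauli.fn (ph ε) x)
      2 volume).toReal := by
    rw [Lp.norm_def]
    congr 1
    apply eLpNorm_congr_ae
    filter_upwards [Lp.coeFn_sub (el δ) (el ε), el_coe ε, el_coe δ] with x a1 a2 a3
    rw [a1, Pi.sub_apply, a2, a3]
  rw [h2]
  refine ENNReal.toReal_le_of_le_ofReal (by positivity) h1

/-- **Pauli sets of functions with bounded support need not be discrete or countable.** There is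
an uncountable Pauli set `P ⊆ L²(ℝ)`, all of whose elements vanish a.e. outside `[0,1]`, such that
every point of `P` is a limit, in `L²`-norm, of other points of `P`. -/
theorem result : ∃ P : Set L2, IsPauliSet P ∧
    (∀ f ∈ P, ∀ᵐ x : ℝ, x ∉ Set.Icc (0 : ℝ) 1 → f x = 0) ∧
    ¬ P.Countable ∧
    ∀ f ∈ P, ∃ g : ℕ → L2, (∀ k, g k ∈ P ∧ g k ≠ f) ∧
      Tendsto (fun k => ‖g k - f‖) atTop (nhds 0) := by
  refine ⟨Set.range el, ⟨?_, ?_⟩, ?_, ?_, ?_⟩
  · refine ⟨el (fun _ => true), ⟨_, rfl⟩, el (fun _ => false), ⟨_, rfl⟩, fun h => ?_⟩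
    have := congrFun (el_injective h) 0
    simp at this
  · rintro _ ⟨ε, rfl⟩ _ ⟨δ, rfl⟩ hne
    exact pair fun h => hne (by rw [h])
  · rintro _ ⟨ε, rfl⟩
    filter_upwards [el_coe ε] with x hx hx1
    rw [hx]
    unfold Q84.Pauli.fn
    rw [Set.indicator_of_notMem]
    intro hc
    exact hx1 ⟨hc.1, hc.2.le⟩
  · intro hcount
    have h1 : Countable (Set.range el) := hcount.to_subtype
    have h2 : Countable (ℕ → Bool) := (Equiv.ofInjective el el_injective).countable_iff.2 h1
    obtain ⟨g, hg⟩ := exists_surjective_nat (ℕ → Bool)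
    obtain ⟨n, hn⟩ := hg fun n => !(g n n)
    have := congrFun hn n
    cases h : g n n <;> rw [h] at this <;> simp at this
  · rintro _ ⟨ε, rfl⟩
    refine ⟨fun m => el (Function.update ε m (!(ε m))), fun m => ⟨⟨_, rfl⟩, fun h => ?_⟩, ?_⟩
    · have := congrFun (el_injective h) m
      rw [Function.update_self] at this
      cases hε : ε m <;> rw [hε] at this <;> simp at this
    · refine squeeze_zero (fun m => norm_nonneg _) (fun m => dist_el ε m) ?_
      exact tendsto_pow_atTop_nhds_zero_of_lt_one (by norm_num) (by norm_num)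

end Pool.Agent.Results.MP_d886ff_an.NonDiscretePauliSet
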